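import Pool.Agent.Helper18.PB2.Goals

/-!
# MP_b9cb57_an, second round, packet SMO: differentiability of the norm
-/

set_option autoImplicit false

open MeasureTheory Measure Filter Topology

namespace Pool.Agent.Helper75.PB2

open Pool.Agent.Helper18.PB Pool.Agent.Helper18.PB2

/-- the scaled truncated term -/
noncomputable def ph (α β s : ℝ) : ℝ := max 0 (|s| * α - β) / |s|

theorem ph_nonneg (α β s : ℝ) : 0 ≤ ph α β s :=
  div_nonneg (le_max_left _ _) (abs_nonneg _)

theorem ph_le {α β : ℝ} (hα : 0 ≤ α) (hβ : 0 ≤ β) (s : ℝ) : ph α β s ≤ α := by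
  unfold ph
  rcases (abs_nonneg s).eq_or_lt with h | h
  · rw [← h]; simpa using hα
  · rw [div_le_iff₀ h]
    apply max_le
    · positivity
    · nlinarith

theorem ph_tendsto {α β : ℝ} (hβ : 0 ≤ β) (h : β ≠ 0 ∨ α = 0) :
    Tendsto (ph α β) (𝓝[≠] 0) (𝓝 0) := by
  rcases h with h | h
  · have hpos : 0 < β := lt_of_le_of_ne hβ (Ne.symm h)
    have h1 : Tendsto (fun s : ℝ => |s| * α) (𝓝[≠] 0) (𝓝 0) := by
      have : Continuous fun s : ℝ => |s| * α := by fun_prop
      have h2 := this.tendsto 0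
      simp only [abs_zero, zero_mul] at h2
      exact h2.mono_left nhdsWithin_le_nhds
    have h2 : ∀ᶠ s in 𝓝[≠] (0:ℝ), ph α β s = 0 := by
      filter_upwards [h1.eventually (gt_mem_nhds hpos)] with s hs
      unfold ph
      rw [max_eq_left (by linarith), zero_div]
    exact (tendsto_const_nhds (x := (0:ℝ))).congr' (by filter_upwards [h2] with s hs using hs.symm)
  · have : ph α β = fun _ => 0 := by
      funext s
      unfold ph
      rw [h, mul_zero, zero_sub, max_eq_left (by linarith), zero_div]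
    rw [this]
    exact tendsto_const_nhds

variable {n M : ℕ} {a : ℕ → ℝ → Eu n} {c : ℕ → ℝ} {b : Fin M → ℝ → Eu n} {A : ℕ → ℝ} {B : ℝ}

theorem Jf_div (x h : Eu n) (s u : ℝ) :
    Jf a c b x (s • h) u / |s| =
      (∑ i, ∑ j, (ph |inner ℝ (b i u - b j u) h| |inner ℝ (b i u - b j u) x| s +
        ph |inner ℝ (b i u + b j u) h| |inner ℝ (b i u + b j u) x| s)) +
      ∑' k, c k * (2 * ph |inner ℝ (a k u) h| |inner ℝ (a k u) x| s) := by
  unfold Jf ph
  rw [add_div, Finset.sum_div, ← tsum_div_const]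
  congr 1
  · apply Finset.sum_congr rfl
    intro i _
    rw [Finset.sum_div]
    apply Finset.sum_congr rfl
    intro j _
    rw [inner_smul_right, inner_smul_right, abs_mul, abs_mul, add_div]
  · congr 1
    funext k
    rw [inner_smul_right, abs_mul]
    ring

theorem term_bound {e h : Eu n} {C : ℝ} (he : ‖e‖ ≤ C) : |inner ℝ e h| ≤ C * ‖h‖ :=
  (abs_real_inner_le_norm e h).trans (mul_le_mul_of_nonneg_right he (norm_nonneg _))

theorem fin_bound (hd : Dat a c b A B) (x h : Eu n) (s u : ℝ) (i j : Fin M) :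
    ph |inner ℝ (b i u - b j u) h| |inner ℝ (b i u - b j u) x| s +
      ph |inner ℝ (b i u + b j u) h| |inner ℝ (b i u + b j u) x| s ≤
      2 * B * ‖h‖ + 2 * B * ‖h‖ := by
  have h1 : ‖b i u - b j u‖ ≤ 2 * B :=
    (norm_sub_le _ _).trans (by linarith [hd.bb i u, hd.bb j u])
  have h2 : ‖b i u + b j u‖ ≤ 2 * B :=
    (norm_add_le _ _).trans (by linarith [hd.bb i u, hd.bb j u])
  exact add_le_add ((ph_le (abs_nonneg _) (abs_nonneg _) s).trans (term_bound h1))
    ((ph_le (abs_nonneg _) (abs_nonneg _) s).trans (term_bound h2))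

theorem ser_bound (hd : Dat a c b A B) (x h : Eu n) (s u : ℝ) (k : ℕ) :
    c k * (2 * ph |inner ℝ (a k u) h| |inner ℝ (a k u) x| s) ≤ 2 * ‖h‖ * (c k * A k) := by
  have h1 := (ph_le (abs_nonneg (inner ℝ (a k u) h)) (abs_nonneg (inner ℝ (a k u) x)) s).trans
    (term_bound (h := h) (hd.ba k u))
  have h2 := hd.cpos k
  calc c k * (2 * ph |inner ℝ (a k u) h| |inner ℝ (a k u) x| s)
      ≤ c k * (2 * (A k * ‖h‖)) := by gcongr
    _ = _ := by ring

theorem ser_nonneg (hd : Dat a c b A B) (x h : Eu n) (s u : ℝ) (k : ℕ) :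
    0 ≤ c k * (2 * ph |inner ℝ (a k u) h| |inner ℝ (a k u) x| s) :=
  mul_nonneg (hd.cpos k).le (mul_nonneg (by norm_num) (ph_nonneg _ _ _))

theorem ser_sum (hd : Dat a c b A B) (h : Eu n) : Summable (fun k => 2 * ‖h‖ * (c k * A k)) :=
  hd.csum.mul_left _

/-- the integrals tend to `0` -/
theorem int_tendsto (hD2 : HD2) (hd : Dat a c b A B) (x h : Eu n)
    (hae : ∀ᵐ u ∂(volume.restrict (Set.Icc (0 : ℝ) 1)), (∀ k, inner ℝ (a k u) x ≠ 0) ∧
        ∀ i j, (b i u - b j u = 0 ∨ inner ℝ (b i u - b j u) x ≠ 0) ∧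
          (b i u + b j u = 0 ∨ inner ℝ (b i u + b j u) x ≠ 0)) :
    Tendsto (fun s : ℝ => (∫ u in Set.Icc (0 : ℝ) 1, Jf a c b x (s • h) u) / |s|) (𝓝[≠] 0)
      (𝓝 0) := by
  have hint := (hD2 n M a c b A B hd).2.1
  have key : Tendsto (fun s : ℝ => ∫ u in Set.Icc (0 : ℝ) 1, Jf a c b x (s • h) u / |s|)
      (𝓝[≠] 0) (𝓝 (∫ _ in Set.Icc (0 : ℝ) 1, (0:ℝ))) := by
    apply tendsto_integral_filter_of_dominated_convergence (fun _ =>
      (∑ _i : Fin M, ∑ _j : Fin M, (2 * B * ‖h‖ + 2 * B * ‖h‖)) +
        ∑' k, 2 * ‖h‖ * (c k * A k))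
    · refine Eventually.of_forall fun s => ?_
      have h1 : Integrable (fun u => Jf a c b x (s • h) u / |s|)
          (volume.restrict (Set.Icc (0:ℝ) 1)) := (hint x (s • h)).div_const _
      exact h1.1
    · refine Eventually.of_forall fun s => Eventually.of_forall fun u => ?_
      rw [Jf_div, Real.norm_eq_abs, abs_of_nonneg]
      · apply add_le_add
        · exact Finset.sum_le_sum fun i _ => Finset.sum_le_sum fun j _ =>
            fin_bound hd x h s u i j
        · apply Summable.tsum_le_tsum (fun k => ser_bound hd x h s u k)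
            (Summable.of_nonneg_of_le (ser_nonneg hd x h s u) (ser_bound hd x h s u)
              (ser_sum hd h)) (ser_sum hd h)
      · apply add_nonneg
        · exact Finset.sum_nonneg fun i _ => Finset.sum_nonneg fun j _ =>
            add_nonneg (ph_nonneg _ _ _) (ph_nonneg _ _ _)
        · exact tsum_nonneg fun k => ser_nonneg hd x h s u k
    · exact integrable_const _
    · filter_upwards [hae] with u hu
      simp only [Jf_div]
      have e0 : (0:ℝ) = (∑ _i : Fin M, ∑ _j : Fin M, ((0:ℝ) + 0)) + ∑' _k : ℕ, (0:ℝ) := by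
        simp
      have hgoal : Tendsto (fun s : ℝ => (∑ i, ∑ j,
          (ph |inner ℝ (b i u - b j u) h| |inner ℝ (b i u - b j u) x| s +
          ph |inner ℝ (b i u + b j u) h| |inner ℝ (b i u + b j u) x| s)) +
          ∑' k, c k * (2 * ph |inner ℝ (a k u) h| |inner ℝ (a k u) x| s)) (𝓝[≠] 0)
          (𝓝 ((∑ _i : Fin M, ∑ _j : Fin M, ((0:ℝ) + 0)) + ∑' _k : ℕ, (0:ℝ))) := ?_
      · rwa [← e0] at hgoal
      apply Tendsto.add
      · apply tendsto_finsetSum
        intro i _
        apply tendsto_finsetSum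
        intro j _
        apply Tendsto.add
        · apply ph_tendsto (abs_nonneg _)
          rcases (hu.2 i j).1 with h0 | h0
          · right; rw [h0]; simp
          · left; exact abs_ne_zero.mpr h0
        · apply ph_tendsto (abs_nonneg _)
          rcases (hu.2 i j).2 with h0 | h0
          · right; rw [h0]; simp
          · left; exact abs_ne_zero.mpr h0
      · apply tendsto_tsum_of_dominated_convergence (ser_sum hd h)
        · intro k
          have h1 := ph_tendsto (α := |inner ℝ (a k u) h|) (β := |inner ℝ (a k u) x|)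
            (abs_nonneg _) (Or.inl (abs_ne_zero.mpr (hu.1 k)))
          have h2 := (h1.const_mul 2).const_mul (c k)
          simpa using h2
        · refine Eventually.of_forall fun s k => ?_
          rw [Real.norm_eq_abs, abs_of_nonneg (ser_nonneg hd x h s u k)]
          exact ser_bound hd x h s u k
  simp only [integral_div, integral_zero] at key
  exact key

/-- SMO. -/
theorem smo : HD2 → HSmo := by
  intro hD2 n M a c b A B hd Y _ _ L hL x hx hae
  have hfd : FiniteDimensional ℝ Y := LinearEquiv.finiteDimensional L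
  set p : Y := L x with hp
  have hp0 : p ≠ 0 := by
    rw [hp]
    intro h0
    exact hx (L.map_eq_zero_iff.mp h0)
  obtain ⟨w, hw1, hwp⟩ := exists_dual_vector ℝ p (norm_ne_zero_iff.mpr hp0)
  have hwp' : w p = ‖p‖ := hwp
  have hwle : ∀ y, w y ≤ ‖y‖ := fun y => by
    have := w.le_opNorm y
    rw [hw1, one_mul] at this
    exact (le_abs_self _).trans this
  have hlip : LipschitzWith 1 (fun y : Y => ‖y‖) := lipschitzWith_one_norm
  have hder : HasFDerivAt (fun y : Y => ‖y‖) w p := by
    apply hlip.hasFDerivAt_of_hasLineDerivAt_of_closure (s := Set.univ) (by simp)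
    intro v _
    obtain ⟨h, rfl⟩ := L.surjective v
    unfold HasLineDerivAt
    rw [hasDerivAt_iff_tendsto_slope_zero, tendsto_iff_norm_sub_tendsto_zero]
    have hup := int_tendsto hD2 hd x h hae
    refine squeeze_zero' (Eventually.of_forall fun _ => norm_nonneg _) ?_ hup
    filter_upwards [self_mem_nhdsWithin] with s hs
    have hs0 : s ≠ 0 := hs
    have hsp : 0 < |s| := abs_pos.mpr hs0
    rw [le_div_iff₀ hsp, Real.norm_eq_abs, ← abs_mul]
    have e1 : (s⁻¹ • (‖p + (0 + s) • L h‖ - ‖p + (0:ℝ) • L h‖) - w (L h)) * s =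
        ‖p + s • L h‖ - ‖p‖ - s * w (L h) := by
      rw [zero_add, zero_smul, add_zero, smul_eq_mul]
      field_simp
    rw [e1]
    have hD := (hD2 n M a c b A B hd).2.2 x (s • h)
    rw [← hL, ← hL, ← hL, map_add, map_sub, map_smul] at hD
    have lo : ‖p‖ + s * w (L h) ≤ ‖p + s • L h‖ := by
      have := hwle (p + s • L h)
      rw [map_add, map_smul, hwp', smul_eq_mul] at this
      exact this
    have lo2 : ‖p‖ - s * w (L h) ≤ ‖p - s • L h‖ := by
      have := hwle (p - s • L h)
      rw [map_sub, map_smul, hwp', smul_eq_mul] at this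
      exact this
    rw [abs_of_nonneg (by linarith)]
    rw [← hp] at hD
    linarith
  exact hder.differentiableAt

end Pool.Agent.Helper75.PB2
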